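import Pool.Agent.Cyc.Core
import Pool.Agent.Cyc.HeightLower
import Pool.Agent.Cyc.LocFinal
import Pool.Agent.Cyc.SmoothC

/-!
# The Hasse principle for 100% of Fano cyclic covers of projective space

Let `e ≥ 2`, `m ≥ 1`, `n ≥ 2` with `(e - 1) m ≤ n`.  For an integral form `F` of degree `e m` in
`n + 1` variables whose zero locus in `ℙⁿ` is smooth, the cyclic cover `w ^ e = F(x)` of `ℙⁿ` (in
the weighted projective space `ℙ(1, ..., 1, m)`) is a Fano variety of dimension `n`; for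
`e = m = n = 2` these are the del Pezzo surfaces of degree 2.  Order the forms `F` by the maximal
absolute value `A` of their coefficients.

Then the smooth everywhere locally soluble members of the family have positive (lower) density, and
100% of them have a rational point, i.e. satisfy the Hasse principle.  Moreover the least height of
a rational point has the exact order `A ^ ((e - 1) / (e (n + 1 - (e - 1) m)))` for 100% of them:
for every `ε > 0` there are `λ, Λ > 0` such that all but a proportion `ε` of them have a point with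
`|x| ^ (e (n + 1 - (e - 1) m)) ≤ Λ A ^ (e - 1)` but no point with
`|x| ^ (e (n + 1 - (e - 1) m)) ≤ λ A ^ (e - 1)`.
-/

namespace Pool.Agent.Results.MP_03ef3d_ag.CyclicCovers

open MvPolynomial Pool.Agent.Hhelper90.RCI Pool.Agent.HP Pool.Agent.Cyc

/-- The set of integral forms of degree `d` in `n + 1` variables, all of whose coefficients are at
most `A` in absolute value. -/
def Forms (n d A : ℕ) : Set (MvPolynomial (Fin (n + 1)) ℤ) :=
  {F | F.IsHomogeneous d ∧ ∀ m, |F.coeff m| ≤ (A : ℤ)}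

/-- The cyclic cover `w ^ e = F(x)` has a point over the field `K`. -/
def HasPoint {n : ℕ} (K : Type) [Field K] (e : ℕ) (F : MvPolynomial (Fin (n + 1)) ℤ) : Prop :=
  ∃ (x : Fin (n + 1) → K) (w : K), x ≠ 0 ∧ w ^ e = aeval x F

/-- The cyclic cover `w ^ e = F(x)` has real points and `p`-adic points for all primes `p`. -/
def EverywhereLocallySoluble {n : ℕ} (e : ℕ) (F : MvPolynomial (Fin (n + 1)) ℤ) : Prop :=
  HasPoint ℝ e F ∧ ∀ (p : ℕ) [Fact p.Prime], HasPoint ℚ_[p] e F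

/-- The hypersurface `F = 0` in projective `n`-space is smooth (over `ℂ`). -/
def SmoothBranch {n : ℕ} (F : MvPolynomial (Fin (n + 1)) ℤ) : Prop :=
  ∀ z : Fin (n + 1) → ℂ, z ≠ 0 → ∃ j, aeval z (pderiv j F) ≠ 0

/-- The cyclic cover `w ^ e = F(x)` has an integral point `(x, w)`, `x ≠ 0`, all of whose
coordinates `x j` satisfy `|x j| ^ s ≤ T`. -/
def HasSmallPoint {n : ℕ} (e s : ℕ) (T : ℝ) (F : MvPolynomial (Fin (n + 1)) ℤ) : Prop :=
  ∃ (x : Fin (n + 1) → ℤ) (w : ℤ), x ≠ 0 ∧ w ^ e = aeval x F ∧ ∀ j, (|x j| : ℝ) ^ s ≤ T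

theorem forms_eq (n d A : ℕ) :
    Forms n d A = poly '' (box (Mon n d) (A : ℤ) : Set (Mon n d → ℤ)) := by
  ext F
  constructor
  · intro hF
    exact ⟨fun m => F.coeff m.1, by rw [Finset.mem_coe]; exact mem_box.2 fun m => hF.2 m.1,
      poly_coeff hF.1⟩
  · rintro ⟨a, ha, rfl⟩
    rw [Finset.mem_coe] at ha
    refine ⟨isHomogeneous_poly _, fun m => ?_⟩
    by_cases hm : m ∈ Mon n d
    · rw [show m = (⟨m, hm⟩ : Mon n d).1 from rfl, coeff_poly]
      exact mem_box.1 ha _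
    · rw [coeff_poly_of_notMem _ _ hm, abs_zero]
      positivity

theorem poly_injective {n d : ℕ} : Function.Injective (poly : (Mon n d → ℤ) → _) := by
  intro a b hab
  funext m
  rw [← coeff_poly a m, ← coeff_poly b m, hab]

theorem ncard_sep {n d A : ℕ} (P : MvPolynomial (Fin (n + 1)) ℤ → Prop)
    [DecidablePred fun a : Mon n d → ℤ => P (poly a)] :
    {F ∈ Forms n d A | P F}.ncard =
      ((box (Mon n d) (A : ℤ)).filter fun a => P (poly a)).card := by
  have h1 : {F ∈ Forms n d A | P F} = poly ''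
      (((box (Mon n d) (A : ℤ)).filter fun a => P (poly a) : Finset _) :
        Set (Mon n d → ℤ)) := by
    rw [forms_eq]
    ext F
    constructor
    · rintro ⟨⟨a, ha, rfl⟩, hP⟩
      exact ⟨a, by rw [Finset.mem_coe, Finset.mem_filter]; exact ⟨ha, hP⟩, rfl⟩
    · rintro ⟨a, ha, rfl⟩
      rw [Finset.mem_coe, Finset.mem_filter] at ha
      exact ⟨⟨a, ha.1, rfl⟩, ha.2⟩
  rw [h1, Set.ncard_image_of_injective _ poly_injective, Set.ncard_coe_finset]

theorem ncard_forms (n d A : ℕ) :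
    ((Forms n d A).ncard : ℝ) = (2 * (A : ℝ) + 1) ^ Fintype.card (Mon n d) := by
  rw [forms_eq, Set.ncard_image_of_injective _ poly_injective, Set.ncard_coe_finset, card_box]
  push_cast
  rfl

theorem els_iff {n d : ℕ} (e : ℕ) (a : Mon n d → ℤ) :
    EverywhereLocallySoluble e (poly a) ↔ ELSC e a := by
  unfold EverywhereLocallySoluble HasPoint ELSC
  simp only [aeval_poly]

theorem small_iff {n d : ℕ} (e s : ℕ) (hs : s ≠ 0) (T : ℝ) (a : Mon n d → ℤ) :
    HasSmallPoint e s T (poly a) ↔ SolB e s T a := by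
  unfold HasSmallPoint SolB
  constructor
  · rintro ⟨x, w, hx, hw, hT⟩
    refine ⟨x, w, hx, ?_, ?_⟩
    · rw [hw, aeval_poly]
      simp
    · obtain ⟨j, _, hj⟩ := Finset.exists_max_image Finset.univ (fun j => |x j|)
        ⟨0, Finset.mem_univ _⟩
      have h1 : ‖x‖ ≤ |(x j : ℝ)| := by
        rw [pi_norm_le_iff_of_nonneg (abs_nonneg _)]
        intro i
        rw [Int.norm_eq_abs]
        exact_mod_cast hj i (Finset.mem_univ _)
      exact le_trans (pow_le_pow_left₀ (norm_nonneg _) h1 s) (hT j)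
  · rintro ⟨x, w, hx, hw, hT⟩
    refine ⟨x, w, hx, ?_, fun j => le_trans (pow_le_pow_left₀ (by positivity) ?_ s) hT⟩
    · rw [hw, aeval_poly]
      simp
    · have := norm_le_pi_norm x j
      rwa [Int.norm_eq_abs] at this

theorem smooth_iff {n d : ℕ} (a : Mon n d → ℤ) :
    ¬ SmoothBranch (poly a) ↔ ∃ z : Fin (n + 1) → ℂ, z ≠ 0 ∧
      ∀ j, dfev j (fun s => (a s : ℂ)) z = 0 := by
  unfold SmoothBranch
  simp only [aeval_pderiv_poly]
  push Not
  rfl

theorem els_of_small {n d : ℕ} (e s : ℕ) (T : ℝ) (a : Mon n d → ℤ) (h : SolB e s T a) :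
    ELSC e a := by
  obtain ⟨x, w, hx, hw, _⟩ := h
  obtain ⟨j, hj⟩ : ∃ j, x j ≠ 0 := by
    by_contra h
    push Not at h
    exact hx (funext h)
  refine ⟨⟨fun i => (x i : ℝ), (w : ℝ), ?_, ?_⟩, fun p _ => ⟨fun i => (x i : ℚ_[p]), (w : ℚ_[p]),
    ?_, ?_⟩⟩
  · intro h0
    have := congrFun h0 j
    simp only [Pi.zero_apply, Int.cast_eq_zero] at this
    exact hj this
  · have h1 := map_fev (Int.castRingHom ℝ) a x
    rw [← hw] at h1
    simpa using h1
  · intro h0
    have := congrFun h0 j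
    simp only [Pi.zero_apply, Int.cast_eq_zero] at this
    exact hj this
  · have h1 := map_fev (Int.castRingHom ℚ_[p]) a x
    rw [← hw] at h1
    simpa using h1

/-- all but a small proportion of the everywhere locally soluble forms have a small point -/
theorem part_one (e m n : ℕ) (he : 2 ≤ e) (hm : 1 ≤ m) (hn : 2 ≤ n) (hF : (e - 1) * m ≤ n)
    (ε : ℝ) (hε : 0 < ε) : ∃ Λ : ℝ, 0 < Λ ∧ ∃ A₀ : ℕ, ∀ A : ℕ, A₀ ≤ A →
      (({F ∈ Forms n (e * m) A | EverywhereLocallySoluble e F ∧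
        ¬ HasSmallPoint e (e * (n + 1 - (e - 1) * m)) (Λ * (A : ℝ) ^ (e - 1)) F}.ncard : ℕ) : ℝ) ≤
        ε * ((Forms n (e * m) A).ncard : ℝ) := by
  classical
  set s : ℕ := e * (n + 1 - (e - 1) * m) with hs
  have hs0 : s ≠ 0 := by
    have h1 : 1 ≤ n + 1 - (e - 1) * m := by omega
    have : 1 ≤ s := Nat.mul_pos (by omega) h1
    omega
  have hroots : Roots e := fun L t a c ht => card_roots_le e (by omega) t ht c a L
  obtain ⟨c0, hc0, hloc⟩ := local_all e m n he hm hn hroots (ε / 2) (by positivity)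
  obtain ⟨Q, hQ, Λ, hΛ, A1, hcore⟩ := core e m n he hm hn hF c0 (ε / 2) hc0 (by positivity)
  obtain ⟨A2, hloc⟩ := hloc Q hQ
  refine ⟨Λ, hΛ, max A1 A2, fun A hA => ?_⟩
  have h1 := hcore A (le_trans (le_max_left _ _) hA)
  have h2 := hloc A (le_trans (le_max_right _ _) hA)
  rw [ncard_forms, ncard_sep]
  have h3 : ((box (Mon n (e * m)) (A : ℤ)).filter fun a =>
      EverywhereLocallySoluble e (poly a) ∧
        ¬ HasSmallPoint e s (Λ * (A : ℝ) ^ (e - 1)) (poly a)) ⊆
      ((box (Mon n (e * m)) (A : ℤ)).filter fun F => RealC e c0 A F ∧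
        c0 * (Q : ℝ) ^ (n + 1) ≤ (solC e Q (redC Q F) : ℝ) ∧
        ¬ SolB e s (Λ * (A : ℝ) ^ (e - 1)) F) ∪
      ((box (Mon n (e * m)) (A : ℤ)).filter fun F => ELSC e F ∧ ¬ (RealC e c0 A F ∧
        c0 * (Q : ℝ) ^ (n + 1) ≤ (solC e Q (redC Q F) : ℝ))) := by
    intro a ha
    rw [Finset.mem_filter, els_iff, small_iff e s hs0] at ha
    rw [Finset.mem_union, Finset.mem_filter, Finset.mem_filter]
    by_cases h : RealC e c0 A a ∧ c0 * (Q : ℝ) ^ (n + 1) ≤ (solC e Q (redC Q a) : ℝ)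
    · exact Or.inl ⟨ha.1, h.1, h.2, ha.2.2⟩
    · exact Or.inr ⟨ha.1, ha.2.1, h⟩
  have h4 := (Finset.card_le_card h3).trans (Finset.card_union_le _ _)
  have h5 : (((((box (Mon n (e * m)) (A : ℤ)).filter fun a =>
      EverywhereLocallySoluble e (poly a) ∧
        ¬ HasSmallPoint e s (Λ * (A : ℝ) ^ (e - 1)) (poly a)).card : ℕ) : ℝ)) ≤
      ((((box (Mon n (e * m)) (A : ℤ)).filter fun F => RealC e c0 A F ∧
        c0 * (Q : ℝ) ^ (n + 1) ≤ (solC e Q (redC Q F) : ℝ) ∧
        ¬ SolB e s (Λ * (A : ℝ) ^ (e - 1)) F).card : ℕ) : ℝ) +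
      ((((box (Mon n (e * m)) (A : ℤ)).filter fun F => ELSC e F ∧ ¬ (RealC e c0 A F ∧
        c0 * (Q : ℝ) ^ (n + 1) ≤ (solC e Q (redC Q F) : ℝ))).card : ℕ) : ℝ) := by
    exact_mod_cast h4
  linarith

/-- a positive proportion of the forms is smooth and has a small point -/
theorem part_two (e m n : ℕ) (he : 2 ≤ e) (hm : 1 ≤ m) (hn : 2 ≤ n) (hF : (e - 1) * m ≤ n) :
    ∃ c : ℝ, 0 < c ∧ ∃ A₀ : ℕ, ∀ A : ℕ, A₀ ≤ A →
      c * ((Forms n (e * m) A).ncard : ℝ) ≤
        (({F ∈ Forms n (e * m) A | SmoothBranch F ∧ EverywhereLocallySoluble e F}.ncard : ℕ) :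
          ℝ) := by
  classical
  set s : ℕ := e * (n + 1 - (e - 1) * m) with hs
  have hd : 2 ≤ e * m := le_trans he (Nat.le_mul_of_pos_right e (by omega))
  have hroots : Roots e := fun L t a c ht => card_roots_le e (by omega) t ht c a L
  obtain ⟨c0, c1, hc0, hc1, hpos⟩ := local_pos e m n he hm hn hroots
  obtain ⟨Q, hQ, Λ, hΛ, A1, hcore⟩ := core e m n he hm hn hF c0 (c1 / 4) hc0 (by positivity)
  obtain ⟨A2, hpos⟩ := hpos Q hQ
  obtain ⟨A3, hsm⟩ := smooth_all n (e * m) (by omega) hd (c1 / 4) (by positivity)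
  refine ⟨c1 / 2, by positivity, max A1 (max A2 A3), fun A hA => ?_⟩
  have h1 := hcore A (le_trans (le_max_left _ _) hA)
  have h2 := hpos A (le_trans (le_trans (le_max_left _ _) (le_max_right _ _)) hA)
  have h3 := hsm A (le_trans (le_trans (le_max_right _ _) (le_max_right _ _)) hA)
  rw [ncard_forms, ncard_sep]
  have h4 : ((box (Mon n (e * m)) (A : ℤ)).filter fun F => RealC e c0 A F ∧
        c0 * (Q : ℝ) ^ (n + 1) ≤ (solC e Q (redC Q F) : ℝ)) ⊆
      (((box (Mon n (e * m)) (A : ℤ)).filter fun a => SmoothBranch (poly a) ∧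
        EverywhereLocallySoluble e (poly a)) ∪
      ((box (Mon n (e * m)) (A : ℤ)).filter fun F => RealC e c0 A F ∧
        c0 * (Q : ℝ) ^ (n + 1) ≤ (solC e Q (redC Q F) : ℝ) ∧
        ¬ SolB e s (Λ * (A : ℝ) ^ (e - 1)) F)) ∪
      ((box (Mon n (e * m)) (A : ℤ)).filter fun F => ∃ z : Fin (n + 1) → ℂ, z ≠ 0 ∧
        ∀ j, dfev j (fun s => (F s : ℂ)) z = 0) := by
    intro a ha
    rw [Finset.mem_filter] at ha
    rw [Finset.mem_union, Finset.mem_union, Finset.mem_filter, Finset.mem_filter,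
      Finset.mem_filter, els_iff]
    by_cases hs1 : SmoothBranch (poly a)
    · by_cases hs2 : SolB e s (Λ * (A : ℝ) ^ (e - 1)) a
      · exact Or.inl (Or.inl ⟨ha.1, hs1, els_of_small e s _ a hs2⟩)
      · exact Or.inl (Or.inr ⟨ha.1, ha.2.1, ha.2.2, hs2⟩)
    · exact Or.inr ⟨ha.1, (smooth_iff a).1 hs1⟩
  have h5 := (Finset.card_le_card h4).trans ((Finset.card_union_le _ _).trans
    (Nat.add_le_add_right (Finset.card_union_le _ _) _))
  have h6 : ((((box (Mon n (e * m)) (A : ℤ)).filter fun F => RealC e c0 A F ∧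
        c0 * (Q : ℝ) ^ (n + 1) ≤ (solC e Q (redC Q F) : ℝ)).card : ℕ) : ℝ) ≤
      (((((box (Mon n (e * m)) (A : ℤ)).filter fun a => SmoothBranch (poly a) ∧
        EverywhereLocallySoluble e (poly a)).card : ℕ) : ℝ) +
      ((((box (Mon n (e * m)) (A : ℤ)).filter fun F => RealC e c0 A F ∧
        c0 * (Q : ℝ) ^ (n + 1) ≤ (solC e Q (redC Q F) : ℝ) ∧
        ¬ SolB e s (Λ * (A : ℝ) ^ (e - 1)) F).card : ℕ) : ℝ)) +
      ((((box (Mon n (e * m)) (A : ℤ)).filter fun F => ∃ z : Fin (n + 1) → ℂ, z ≠ 0 ∧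
        ∀ j, dfev j (fun s => (F s : ℂ)) z = 0).card : ℕ) : ℝ) := by
    exact_mod_cast h5
  linarith

/-- only few forms have a very small point -/
theorem part_three (e m n : ℕ) (he : 2 ≤ e) (hm : 1 ≤ m) (hn : 2 ≤ n) (hF : (e - 1) * m ≤ n)
    (ε : ℝ) (hε : 0 < ε) : ∃ lam : ℝ, 0 < lam ∧ ∃ A₀ : ℕ, ∀ A : ℕ, A₀ ≤ A →
      (({F ∈ Forms n (e * m) A |
        HasSmallPoint e (e * (n + 1 - (e - 1) * m)) (lam * (A : ℝ) ^ (e - 1)) F}.ncard : ℕ) : ℝ) ≤
        ε * ((Forms n (e * m) A).ncard : ℝ) := by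
  classical
  have hs0 : e * (n + 1 - (e - 1) * m) ≠ 0 := by
    have h1 : 1 ≤ n + 1 - (e - 1) * m := by omega
    have : 1 ≤ e * (n + 1 - (e - 1) * m) := Nat.mul_pos (by omega) h1
    omega
  obtain ⟨lam, hlam, A0, h⟩ := height_lower e m n he hm hn hF ε hε
  refine ⟨lam, hlam, A0, fun A hA => ?_⟩
  rw [ncard_forms, ncard_sep]
  simp only [small_iff e _ hs0]
  exact h A hA

/-- **The Hasse principle for 100% of Fano cyclic covers of projective space.**
Let `e ≥ 2`, `m ≥ 1`, `n ≥ 2` and `(e - 1) m ≤ n`, and order the integral forms `F` of degree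
`e m` in `n + 1` variables by the maximal absolute value `A` of the coefficients.  There is
`c > 0` such that for every `ε > 0` there are `λ, Λ > 0` and `A₀` with the following property for
all `A ≥ A₀`: the forms `F` with smooth zero locus for which `w ^ e = F(x)` is everywhere locally
soluble are at least a proportion `c` of all forms, and all but a proportion `ε` of them have an
integral point `(x, w)` with `x ≠ 0` and `|x j| ^ (e (n + 1 - (e - 1) m)) ≤ Λ A ^ (e - 1)` for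
all `j`, but no such point with `|x j| ^ (e (n + 1 - (e - 1) m)) ≤ λ A ^ (e - 1)` for all `j`. -/
theorem result (e m n : ℕ) (he : 2 ≤ e) (hm : 1 ≤ m) (hn : 2 ≤ n) (hF : (e - 1) * m ≤ n) :
    ∃ c : ℝ, 0 < c ∧ ∀ ε : ℝ, 0 < ε → ∃ lam : ℝ, 0 < lam ∧ ∃ Λ : ℝ, 0 < Λ ∧
      ∃ A₀ : ℕ, ∀ A : ℕ, A₀ ≤ A →
      c * ((Forms n (e * m) A).ncard : ℝ) ≤
        (({F ∈ Forms n (e * m) A | SmoothBranch F ∧ EverywhereLocallySoluble e F}.ncard : ℕ) :
          ℝ) ∧
      (1 - ε) * (({F ∈ Forms n (e * m) A | SmoothBranch F ∧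
        EverywhereLocallySoluble e F}.ncard : ℕ) : ℝ) ≤
        (({F ∈ Forms n (e * m) A | SmoothBranch F ∧ EverywhereLocallySoluble e F ∧
          HasSmallPoint e (e * (n + 1 - (e - 1) * m)) (Λ * (A : ℝ) ^ (e - 1)) F ∧
          ¬ HasSmallPoint e (e * (n + 1 - (e - 1) * m)) (lam * (A : ℝ) ^ (e - 1)) F}.ncard : ℕ) :
          ℝ) := by
  classical
  obtain ⟨c, hc, A1, h1⟩ := part_two e m n he hm hn hF
  refine ⟨c, hc, fun ε hε => ?_⟩
  obtain ⟨Λ, hΛ, A2, h2⟩ := part_one e m n he hm hn hF (ε / 2 * c) (by positivity)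
  obtain ⟨lam, hlam, A3, h3'⟩ := part_three e m n he hm hn hF (ε / 2 * c) (by positivity)
  refine ⟨lam, hlam, Λ, hΛ, max A1 (max A2 A3), fun A hA =>
    ⟨h1 A (le_trans (le_max_left _ _) hA), ?_⟩⟩
  have h3 := h1 A (le_trans (le_max_left _ _) hA)
  have h4 := h2 A (le_trans (le_trans (le_max_left _ _) (le_max_right _ _)) hA)
  have h4' := h3' A (le_trans (le_trans (le_max_right _ _) (le_max_right _ _)) hA)
  set s : ℕ := e * (n + 1 - (e - 1) * m) with hs
  set T : ℝ := Λ * (A : ℝ) ^ (e - 1) with hT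
  set T' : ℝ := lam * (A : ℝ) ^ (e - 1) with hT'
  have hsub : {F ∈ Forms n (e * m) A | SmoothBranch F ∧ EverywhereLocallySoluble e F} ⊆
      {F ∈ Forms n (e * m) A | SmoothBranch F ∧ EverywhereLocallySoluble e F ∧
          HasSmallPoint e s T F ∧ ¬ HasSmallPoint e s T' F} ∪
      {F ∈ Forms n (e * m) A | EverywhereLocallySoluble e F ∧ ¬ HasSmallPoint e s T F} ∪
      {F ∈ Forms n (e * m) A | HasSmallPoint e s T' F} := by
    rintro F ⟨hF1, hF2, hF3⟩
    by_cases h : HasSmallPoint e s T F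
    · by_cases h' : HasSmallPoint e s T' F
      · exact Or.inr ⟨hF1, h'⟩
      · exact Or.inl (Or.inl ⟨hF1, hF2, hF3, h, h'⟩)
    · exact Or.inl (Or.inr ⟨hF1, hF3, h⟩)
  have hfin : (Forms n (e * m) A).Finite := by
    rw [forms_eq]
    exact (Finset.finite_toSet _).image _
  have h5 := (Set.ncard_le_ncard hsub (((hfin.subset (Set.sep_subset _ _)).union
    (hfin.subset (Set.sep_subset _ _))).union (hfin.subset (Set.sep_subset _ _)))).trans
    ((Set.ncard_union_le _ _).trans (Nat.add_le_add_right (Set.ncard_union_le _ _) _))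
  have h6 : (({F ∈ Forms n (e * m) A | SmoothBranch F ∧
      EverywhereLocallySoluble e F}.ncard : ℕ) : ℝ) ≤
      (({F ∈ Forms n (e * m) A | SmoothBranch F ∧ EverywhereLocallySoluble e F ∧
          HasSmallPoint e s T F ∧ ¬ HasSmallPoint e s T' F}.ncard : ℕ) : ℝ) +
      (({F ∈ Forms n (e * m) A | EverywhereLocallySoluble e F ∧
        ¬ HasSmallPoint e s T F}.ncard : ℕ) : ℝ) +
      (({F ∈ Forms n (e * m) A | HasSmallPoint e s T' F}.ncard : ℕ) : ℝ) := by
    exact_mod_cast h5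
  have h7 := mul_le_mul_of_nonneg_left h3 hε.le
  linarith

end Pool.Agent.Results.MP_03ef3d_ag.CyclicCovers
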