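import Pool.Agent.Ver.Final

/-!
# The Hasse principle for 100% of Fano complete intersections in products of projective spaces

Let `k ≥ 2`, `r ≥ 1`, `d i j ≥ 2` and `∑ i, d i j ≤ n j` for all `j`: then the smooth complete
intersections of multidegrees `d i` in `P^(n 0) × ... × P^(n (k - 1))` are Fano varieties of
dimension at least three and of Picard rank `k`.  Order the `r`-tuples of integral multihomogeneous
forms of multidegrees `d i` by the maximal absolute value `H` of their coefficients.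

Then the smooth everywhere locally soluble members of the family have positive (lower) density, and
100% of them have a rational point, i.e. satisfy the Hasse principle; for every `ε > 0` all but a
proportion `ε` of them have an integral zero `x`, nonzero in each block, with
`|x j| ^ (k * (n j + 1 - ∑ i, d i j)) ≤ Λ H ^ r` for all `j`, `Λ = Λ(ε)`.  For `k = 2`, `r = 1`,
`n = (2, 2)`, `d = (2, 2)` these are the Verra threefolds.
-/

namespace Pool.Agent.Results.MP_03ef3d_ag.ProductsOfProjectiveSpaces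

open MvPolynomial Pool.Agent.Ver Pool.Agent.Hhelper90.RCI Pool.Agent.HP

/-- The variables: the `j`-th block consists of the `n j + 1` homogeneous coordinates of the `j`-th
factor of `P^(n 0) × ... × P^(n (k - 1))`. -/
abbrev Variables {k : ℕ} (n : Fin k → ℕ) := (j : Fin k) × Fin (n j + 1)

/-- `F` is multihomogeneous of multidegree `d`: each monomial of `F` has degree `d j` in the `j`-th
block of variables, for all `j`. -/
def IsMultihomogeneous {k : ℕ} {n : Fin k → ℕ} (d : Fin k → ℕ)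
    (F : MvPolynomial (Variables n) ℤ) : Prop :=
  ∀ m : Variables n →₀ ℕ, F.coeff m ≠ 0 → ∀ j, ∑ c, m ⟨j, c⟩ = d j

/-- The set of `r`-tuples of integral multihomogeneous forms, the `i`-th of multidegree `d i`, all
of whose coefficients are at most `H` in absolute value. -/
def Forms {k : ℕ} (r : ℕ) (n : Fin k → ℕ) (d : Fin r → Fin k → ℕ) (H : ℕ) :
    Set (Fin r → MvPolynomial (Variables n) ℤ) :=
  {F | ∀ i, IsMultihomogeneous (d i) (F i) ∧ ∀ m, |(F i).coeff m| ≤ (H : ℤ)}

/-- The value of `F` at a point given by a coordinate vector for each factor. -/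
noncomputable def value {k : ℕ} {n : Fin k → ℕ} {K : Type*} [CommRing K]
    (x : (j : Fin k) → Fin (n j + 1) → K) (F : MvPolynomial (Variables n) ℤ) : K :=
  aeval (fun q : Variables n => x q.1 q.2) F

/-- The common zero locus of the forms in the product of projective spaces is a smooth complete
intersection of codimension `r`: at each complex common zero, all of whose blocks are nonzero, the
gradients of the `F i` are linearly independent. -/
def IsSmoothCI {k r : ℕ} {n : Fin k → ℕ} (F : Fin r → MvPolynomial (Variables n) ℤ) : Prop :=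
  ∀ z : (j : Fin k) → Fin (n j + 1) → ℂ, (∀ j, z j ≠ 0) → (∀ i, value z (F i) = 0) →
    LinearIndependent ℂ (fun i : Fin r => fun q : Variables n => value z (pderiv q (F i)))

/-- The forms have a common zero in the product of projective spaces over the field `K`. -/
def HasPoint {k r : ℕ} {n : Fin k → ℕ} (K : Type) [Field K]
    (F : Fin r → MvPolynomial (Variables n) ℤ) : Prop :=
  ∃ x : (j : Fin k) → Fin (n j + 1) → K, (∀ j, x j ≠ 0) ∧ ∀ i, value x (F i) = 0

/-- The forms have common zeros over the reals and over the `p`-adic numbers for all primes `p`. -/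
def EverywhereLocallySoluble {k r : ℕ} {n : Fin k → ℕ}
    (F : Fin r → MvPolynomial (Variables n) ℤ) : Prop :=
  HasPoint ℝ F ∧ ∀ (p : ℕ) [Fact p.Prime], HasPoint ℚ_[p] F

/-- The forms have a common integral zero `x`, nonzero in each block, with `|x j c| ^ s j ≤ T` for
all `j`, `c`. -/
def HasSmallPoint {k r : ℕ} {n : Fin k → ℕ} (s : Fin k → ℕ) (T : ℝ)
    (F : Fin r → MvPolynomial (Variables n) ℤ) : Prop :=
  ∃ x : (j : Fin k) → Fin (n j + 1) → ℤ, (∀ j, x j ≠ 0) ∧ (∀ i, value x (F i) = 0) ∧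
    ∀ j c, (|x j c| : ℝ) ^ s j ≤ T

/-- the tuple of polynomials with given coefficients -/
noncomputable def tup {k r : ℕ} {n : Fin k → ℕ} {e : Fin r → Fin k → ℕ} (a : MInd n e → ℤ) :
    Fin r → MvPolynomial (Variables n) ℤ :=
  fun i => mpoly fun m : MM n (fun j => e i j + 1) => a ⟨i, m⟩

theorem forms_eq {k r : ℕ} {n : Fin k → ℕ} (e : Fin r → Fin k → ℕ) (H : ℕ) :
    Forms r n (fun i j => e i j + 1) H =
      tup '' (box (MInd n e) (H : ℤ) : Set (MInd n e → ℤ)) := by
  ext F
  constructor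
  · intro hF
    refine ⟨fun q => (F q.1).coeff (mexp q.2), ?_, ?_⟩
    · rw [Finset.mem_coe]
      exact mem_box.2 fun q => (hF q.1).2 (mexp q.2)
    · funext i
      ext m
      by_cases hm : (F i).coeff m = 0
      · by_cases h : ∃ m' : MM n (fun j => e i j + 1), mexp m' = m
        · obtain ⟨m', rfl⟩ := h
          exact coeff_mpoly _ _
        · rw [hm]
          exact coeff_mpoly_of _ _ fun m' hm' => h ⟨m', hm'⟩
      · obtain ⟨m', rfl⟩ := exists_mexp m ((hF i).1 m hm)
        exact coeff_mpoly _ _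
  · rintro ⟨a, ha, rfl⟩ i
    rw [Finset.mem_coe] at ha
    have key : ∀ m : Variables n →₀ ℕ, (tup a i).coeff m ≠ 0 →
        ∃ m' : MM n (fun j => e i j + 1), mexp m' = m := by
      intro m hm
      by_contra h
      exact hm (coeff_mpoly_of _ _ fun m' hm' => h ⟨m', hm'⟩)
    refine ⟨fun m hm j => ?_, fun m => ?_⟩
    · obtain ⟨m', rfl⟩ := key m hm
      exact sum_mexp m' j
    · by_cases hm : (tup a i).coeff m = 0
      · rw [hm, abs_zero]
        positivity
      · obtain ⟨m', rfl⟩ := key m hm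
        show |(mpoly fun m : MM n (fun j => e i j + 1) => a ⟨i, m⟩).coeff (mexp m')| ≤ _
        rw [coeff_mpoly]
        exact mem_box.1 ha _

theorem tup_injective {k r : ℕ} {n : Fin k → ℕ} (e : Fin r → Fin k → ℕ) :
    Function.Injective (tup : (MInd n e → ℤ) → _) := by
  intro a b hab
  funext ⟨i, m⟩
  have h1 := congrFun hab i
  have h2 : (mpoly fun m : MM n (fun j => e i j + 1) => a ⟨i, m⟩).coeff (mexp m) =
      (mpoly fun m : MM n (fun j => e i j + 1) => b ⟨i, m⟩).coeff (mexp m) := by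
    unfold tup at h1
    rw [h1]
  rwa [coeff_mpoly, coeff_mpoly] at h2

theorem ncard_sep {k r : ℕ} {n : Fin k → ℕ} {e : Fin r → Fin k → ℕ} {H : ℕ}
    (P : (Fin r → MvPolynomial (Variables n) ℤ) → Prop)
    [DecidablePred fun a : MInd n e → ℤ => P (tup a)] :
    {F ∈ Forms r n (fun i j => e i j + 1) H | P F}.ncard =
      ((box (MInd n e) (H : ℤ)).filter fun a => P (tup a)).card := by
  have h1 : {F ∈ Forms r n (fun i j => e i j + 1) H | P F} = tup ''
      (((box (MInd n e) (H : ℤ)).filter fun a => P (tup a) : Finset _) :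
        Set (MInd n e → ℤ)) := by
    rw [forms_eq]
    ext F
    constructor
    · rintro ⟨⟨a, ha, rfl⟩, hP⟩
      exact ⟨a, by rw [Finset.mem_coe, Finset.mem_filter]; exact ⟨ha, hP⟩, rfl⟩
    · rintro ⟨a, ha, rfl⟩
      rw [Finset.mem_coe, Finset.mem_filter] at ha
      exact ⟨⟨a, ha.1, rfl⟩, ha.2⟩
  rw [h1, Set.ncard_image_of_injective _ (tup_injective e), Set.ncard_coe_finset]

theorem ncard_forms {k r : ℕ} {n : Fin k → ℕ} (e : Fin r → Fin k → ℕ) (H : ℕ) :
    ((Forms r n (fun i j => e i j + 1) H).ncard : ℝ) =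
      (2 * (H : ℝ) + 1) ^ Fintype.card (MInd n e) := by
  rw [forms_eq, Set.ncard_image_of_injective _ (tup_injective e), Set.ncard_coe_finset, card_box]
  push_cast
  rfl

theorem value_tup {k r : ℕ} {n : Fin k → ℕ} {e : Fin r → Fin k → ℕ} {R : Type*} [CommRing R]
    (a : MInd n e → ℤ) (x : Pt n R) (i : Fin r) :
    value x (tup a i) = mv (fun q => (a q : R)) x i := by
  unfold tup value
  rw [aeval_mpoly]
  rfl

theorem value_pderiv_tup {k r : ℕ} {n : Fin k → ℕ} {e : Fin r → Fin k → ℕ} {R : Type*}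
    [CommRing R] (a : MInd n e → ℤ) (x : Pt n R) (i : Fin r) (q : Variables n) :
    value x (pderiv q (tup a i)) = mjac (fun q => (a q : R)) x i q := by
  unfold tup value
  rw [aeval_pderiv_mpoly]
  rfl

theorem els_iff {k r : ℕ} {n : Fin k → ℕ} {e : Fin r → Fin k → ℕ} (a : MInd n e → ℤ) :
    EverywhereLocallySoluble (tup a) ↔ MELS a := by
  unfold EverywhereLocallySoluble HasPoint MELS
  simp only [value_tup]

theorem small_of {k r : ℕ} {n : Fin k → ℕ} {e : Fin r → Fin k → ℕ} (s : Fin k → ℕ) (T : ℝ)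
    (a : MInd n e → ℤ) (h : MSmallZ s T a) : HasSmallPoint s T (tup a) := by
  obtain ⟨x, hx, hx0, hxT⟩ := h
  refine ⟨x, hx, fun i => ?_, fun j c => ?_⟩
  · rw [value_tup]
    exact congrFun hx0 i
  · have h1 := norm_le_pi_norm (x j) c
    rw [Int.norm_eq_abs] at h1
    exact (pow_le_pow_left₀ (abs_nonneg _) h1 (s j)).trans (hxT j)

theorem els_of_point {k r : ℕ} {n : Fin k → ℕ} {e : Fin r → Fin k → ℕ} (a : MInd n e → ℤ)
    (h : ∃ x : Pt n ℤ, (∀ j, x j ≠ 0) ∧ mv a x = 0) : EverywhereLocallySoluble (tup a) := by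
  obtain ⟨x, hx, hx0⟩ := h
  have key : ∀ (K : Type) [Field K] [CharZero K], HasPoint K (tup a) := by
    intro K _ _
    refine ⟨fun j c => ((x j c : ℤ) : K), ?_, fun i => ?_⟩
    · intro j h0
      apply hx j
      funext c
      have := congrFun h0 c
      simpa using this
    · rw [value_tup, mv_cast_ring, hx0]
      simp
  exact ⟨key ℝ, fun p _ => key ℚ_[p]⟩

/-- the degrees are of the form `e i j + 1` with `e i j ≥ 1` -/
theorem exists_e {k r : ℕ} (n : Fin k → ℕ) (d : Fin r → Fin k → ℕ) (hk : 2 ≤ k) (hr : 1 ≤ r)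
    (hd : ∀ i j, 2 ≤ d i j) (hn : ∀ j, ∑ i, d i j ≤ n j) :
    ∃ e : Fin r → Fin k → ℕ, d = (fun i j => e i j + 1) ∧ Stmt.Hyp k r n e := by
  refine ⟨fun i j => d i j - 1, ?_, hk, hr, fun i j => ?_, fun j => ?_⟩
  · funext i j
    have := hd i j
    show d i j = d i j - 1 + 1
    omega
  · have := hd i j
    show 1 ≤ d i j - 1
    omega
  · refine le_trans (le_of_eq ?_) (hn j)
    unfold dg
    refine Finset.sum_congr rfl fun i _ => ?_
    have := hd i j
    show d i j - 1 + 1 = d i j
    omega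

/-- all but a small proportion of the everywhere locally soluble tuples have a small zero -/
theorem part_one (k r : ℕ) (n : Fin k → ℕ) (d : Fin r → Fin k → ℕ)
    (hk : 2 ≤ k) (hr : 1 ≤ r) (hd : ∀ i j, 2 ≤ d i j) (hn : ∀ j, ∑ i, d i j ≤ n j)
    (ε : ℝ) (hε : 0 < ε) :
    ∃ Λ : ℝ, 0 < Λ ∧ ∃ H₀ : ℕ, ∀ H : ℕ, H₀ ≤ H →
      (({F ∈ Forms r n d H | EverywhereLocallySoluble F ∧
        ¬ HasSmallPoint (fun j => k * (n j + 1 - ∑ i, d i j)) (Λ * (H : ℝ) ^ r) F}.ncard : ℕ) : ℝ) ≤
        ε * ((Forms r n d H).ncard : ℝ) := by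
  classical
  obtain ⟨e, rfl, he⟩ := exists_e n d hk hr hd hn
  obtain ⟨Λ, hΛ, H0, hmain⟩ := mainAll k r n e he ε hε
  refine ⟨Λ, hΛ, H0, fun H hH => ?_⟩
  rw [ncard_forms, ncard_sep]
  refine le_trans ?_ (hmain H hH)
  rw [Nat.cast_le]
  refine Finset.card_le_card ?_
  intro a ha
  rw [Finset.mem_filter] at ha ⊢
  exact ⟨ha.1, (els_iff a).1 ha.2.1, fun h => ha.2.2 (small_of _ _ a h)⟩

/-- a positive proportion of the tuples defines a smooth everywhere locally soluble complete
intersection -/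
theorem part_two (k r : ℕ) (n : Fin k → ℕ) (d : Fin r → Fin k → ℕ)
    (hk : 2 ≤ k) (hr : 1 ≤ r) (hd : ∀ i j, 2 ≤ d i j) (hn : ∀ j, ∑ i, d i j ≤ n j) :
    ∃ δ : ℝ, 0 < δ ∧ ∃ H₀ : ℕ, ∀ H : ℕ, H₀ ≤ H →
      δ * ((Forms r n d H).ncard : ℝ) ≤
        (({F ∈ Forms r n d H | IsSmoothCI F ∧ EverywhereLocallySoluble F}.ncard : ℕ) : ℝ) := by
  classical
  obtain ⟨e, rfl, he⟩ := exists_e n d hk hr hd hn
  obtain ⟨c, hc, H0, hpos⟩ := positiveAll k r n e he
  refine ⟨c, hc, H0, fun H hH => ?_⟩
  rw [ncard_forms, ncard_sep]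
  refine (hpos H hH).trans ?_
  rw [Nat.cast_le]
  refine Finset.card_le_card ?_
  intro a ha
  rw [Finset.mem_filter] at ha ⊢
  obtain ⟨ha1, ha2, ha3⟩ := ha
  refine ⟨ha1, fun z hz hz0 => ?_, els_of_point a ha2⟩
  have h := ha3 z hz fun i => by
    rw [← value_tup]
    exact hz0 i
  have h1 : (fun i : Fin r => fun q : Variables n => value z (pderiv q (tup a i))) =
      (fun i : Fin r => fun q : Var n => mjac (fun s => (a s : ℂ)) z i q) := by
    funext i q
    exact value_pderiv_tup a z i q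
  rw [h1]
  exact h

/-- **The Hasse principle for 100% of Fano complete intersections in products of projective
spaces.**  Let `k ≥ 2`, `r ≥ 1`, `d i j ≥ 2` and `∑ i, d i j ≤ n j` for all `j`, and order the
`r`-tuples of integral multihomogeneous forms of multidegrees `d i` in `k` blocks of `n j + 1`
variables by the maximal absolute value `H` of the coefficients.  There is `c > 0` such that for
every `ε > 0` there are `Λ` and `H₀` with the following property for all `H ≥ H₀`: the tuples which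
define a smooth everywhere locally soluble complete intersection in `P^(n 0) × ... × P^(n (k - 1))`
are at least a proportion `c` of all tuples, and all but a proportion `ε` of them have an integral
zero `x`, nonzero in each block, with `|x j c| ^ (k * (n j + 1 - ∑ i, d i j)) ≤ Λ H ^ r` for all
`j`, `c`. -/
theorem result (k r : ℕ) (n : Fin k → ℕ) (d : Fin r → Fin k → ℕ) (hk : 2 ≤ k) (hr : 1 ≤ r)
    (hd : ∀ i j, 2 ≤ d i j) (hn : ∀ j, ∑ i, d i j ≤ n j) :
    ∃ c : ℝ, 0 < c ∧ ∀ ε : ℝ, 0 < ε → ∃ Λ : ℝ, 0 < Λ ∧ ∃ H₀ : ℕ, ∀ H : ℕ, H₀ ≤ H →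
      c * ((Forms r n d H).ncard : ℝ) ≤
        (({F ∈ Forms r n d H | IsSmoothCI F ∧ EverywhereLocallySoluble F}.ncard : ℕ) : ℝ) ∧
      (1 - ε) * (({F ∈ Forms r n d H | IsSmoothCI F ∧
        EverywhereLocallySoluble F}.ncard : ℕ) : ℝ) ≤
        (({F ∈ Forms r n d H | IsSmoothCI F ∧ EverywhereLocallySoluble F ∧
          HasSmallPoint (fun j => k * (n j + 1 - ∑ i, d i j)) (Λ * (H : ℝ) ^ r) F}.ncard : ℕ) :
            ℝ) := by
  classical
  obtain ⟨c, hc, H1, h1⟩ := part_two k r n d hk hr hd hn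
  refine ⟨c, hc, fun ε hε => ?_⟩
  obtain ⟨Λ, hΛ, H2, h2⟩ := part_one k r n d hk hr hd hn (ε * c) (by positivity)
  refine ⟨Λ, hΛ, max H1 H2, fun H hH => ?_⟩
  have hfin : (Forms r n d H).Finite := by
    obtain ⟨e, rfl, -⟩ := exists_e n d hk hr hd hn
    rw [forms_eq]
    exact (Finset.finite_toSet _).image _
  have h3 := h1 H (le_trans (le_max_left _ _) hH)
  have h4 := h2 H (le_trans (le_max_right _ _) hH)
  refine ⟨h3, ?_⟩
  set s : Fin k → ℕ := fun j => k * (n j + 1 - ∑ i, d i j) with hs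
  set T : ℝ := Λ * (H : ℝ) ^ r with hT
  have hsub : {F ∈ Forms r n d H | IsSmoothCI F ∧ EverywhereLocallySoluble F} ⊆
      {F ∈ Forms r n d H | IsSmoothCI F ∧ EverywhereLocallySoluble F ∧ HasSmallPoint s T F} ∪
      {F ∈ Forms r n d H | EverywhereLocallySoluble F ∧ ¬ HasSmallPoint s T F} := by
    rintro F ⟨hF1, hF2, hF3⟩
    by_cases h : HasSmallPoint s T F
    · exact Or.inl ⟨hF1, hF2, hF3, h⟩
    · exact Or.inr ⟨hF1, hF3, h⟩
  have h5 := (Set.ncard_le_ncard hsub ((hfin.subset (Set.sep_subset _ _)).union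
    (hfin.subset (Set.sep_subset _ _)))).trans (Set.ncard_union_le _ _)
  have h6 : (({F ∈ Forms r n d H | IsSmoothCI F ∧ EverywhereLocallySoluble F}.ncard : ℕ) : ℝ) ≤
      (({F ∈ Forms r n d H | IsSmoothCI F ∧ EverywhereLocallySoluble F ∧
          HasSmallPoint s T F}.ncard : ℕ) : ℝ) +
      (({F ∈ Forms r n d H | EverywhereLocallySoluble F ∧
        ¬ HasSmallPoint s T F}.ncard : ℕ) : ℝ) := by
    exact_mod_cast h5
  have h7 := mul_le_mul_of_nonneg_left h3 hε.le
  linarith

end Pool.Agent.Results.MP_03ef3d_ag.ProductsOfProjectiveSpaces
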