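import Pool.Agent.DiagHP.All
import Pool.Agent.DiagHP.Positive

/-!
# The Hasse principle for random diagonal Fano hypersurfaces

Let `d ≥ 3` and `N ≥ 2 d + 3`.  Order the diagonal hypersurfaces `∑ i, a i * x i ^ d = 0` of degree
`d` in projective `(N - 1)`-space by `A = max |a i|`.  Then, as `A → ∞`, a positive proportion of
them has a rational point, and the proportion of those with a rational point among the smooth
everywhere locally soluble ones tends to `1`.  The rational point can be represented by integers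
`x i` with `|x i| ^ d ≤ A`.

The proof is a second moment argument (variance of the number of solutions around a local model)
over the points `(u₀ : u₁ V : x)` with `V ≡ 1` modulo a highly divisible `q`.
-/

namespace Pool.Agent.Retired.MP_03ef3d_ag.RandomDiagonal

open Filter Topology Pool.Agent.DiagHP

/-- The hypersurface `∑ i, a i * x i ^ d = 0` is smooth: at each nonzero complex zero some partial
derivative does not vanish. -/
def IsSmooth (d : ℕ) {N : ℕ} (a : Fin N → ℤ) : Prop :=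
  ∀ z : Fin N → ℂ, z ≠ 0 → ∑ i, (a i : ℂ) * z i ^ d = 0 →
    ∃ i, (d : ℂ) * (a i : ℂ) * z i ^ (d - 1) ≠ 0

/-- The hypersurface has a real point and a `p`-adic point for each prime `p`. -/
def LocallySoluble (d : ℕ) {N : ℕ} (a : Fin N → ℤ) : Prop :=
  (∃ x : Fin N → ℝ, x ≠ 0 ∧ ∑ i, (a i : ℝ) * x i ^ d = 0) ∧
    ∀ (p : ℕ) [Fact p.Prime], ∃ x : Fin N → ℚ_[p], x ≠ 0 ∧ ∑ i, (a i : ℚ_[p]) * x i ^ d = 0

/-- The hypersurface has a rational point with integral coordinates `x i`, `|x i| ^ d ≤ A`. -/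
def HasSmallPoint (d A : ℕ) {N : ℕ} (a : Fin N → ℤ) : Prop :=
  ∃ x : Fin N → ℤ, x ≠ 0 ∧ ∑ i, a i * x i ^ d = 0 ∧ ∀ i, |x i| ^ d ≤ (A : ℤ)

/-- The coefficient vectors in `[-A, A] ^ N` of smooth everywhere locally soluble diagonal
hypersurfaces. -/
def LocSet (d N A : ℕ) : Set (Fin N → ℤ) :=
  {a | (∀ i, |a i| ≤ (A : ℤ)) ∧ IsSmooth d a ∧ LocallySoluble d a}

/-- The coefficient vectors in `[-A, A] ^ N` of smooth diagonal hypersurfaces with a rational point
with coordinates of absolute value at most `A ^ (1 / d)`. -/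
def RatSet (d N A : ℕ) : Set (Fin N → ℤ) :=
  {a | (∀ i, |a i| ≤ (A : ℤ)) ∧ IsSmooth d a ∧ HasSmallPoint d A a}

theorem isSmooth_iff {d N : ℕ} (hd : 2 ≤ d) (a : Fin N → ℤ) :
    IsSmooth d a ↔ ∀ i, a i ≠ 0 := by
  constructor
  · intro h i hi
    have hz : (Pi.single i 1 : Fin N → ℂ) ≠ 0 := by
      intro h0
      have := congrFun h0 i
      simp at this
    obtain ⟨j, hj⟩ := h (Pi.single i 1) hz (by
      refine Finset.sum_eq_zero fun j _ => ?_
      by_cases hji : j = i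
      · subst hji
        rw [hi, Int.cast_zero, zero_mul]
      · rw [Pi.single_eq_of_ne hji, zero_pow (by omega), mul_zero])
    apply hj
    by_cases hji : j = i
    · subst hji
      rw [hi, Int.cast_zero, mul_zero, zero_mul]
    · rw [Pi.single_eq_of_ne hji, zero_pow (by omega), mul_zero]
  · intro h z hz _
    obtain ⟨i, hi⟩ := Function.ne_iff.1 hz
    refine ⟨i, mul_ne_zero (mul_ne_zero ?_ ?_) (pow_ne_zero _ hi)⟩
    · exact_mod_cast (by omega : d ≠ 0)
    · exact_mod_cast h i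

theorem locallySoluble_of_point {d A N : ℕ} {a : Fin N → ℤ} (h : HasSmallPoint d A a) :
    LocallySoluble d a := by
  obtain ⟨x, hx, hs, -⟩ := h
  obtain ⟨i, hi⟩ := Function.ne_iff.1 hx
  have hi' : x i ≠ 0 := hi
  refine ⟨⟨fun j => (x j : ℝ), ?_, ?_⟩, ?_⟩
  · intro h0
    have h1 : (x i : ℝ) = 0 := congrFun h0 i
    exact hi' (by exact_mod_cast h1)
  · show ∑ j, (a j : ℝ) * (x j : ℝ) ^ d = 0
    exact_mod_cast hs
  · intro p _
    refine ⟨fun j => (x j : ℚ_[p]), ?_, ?_⟩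
    · intro h0
      have h1 : (x i : ℚ_[p]) = 0 := congrFun h0 i
      exact hi' (by exact_mod_cast h1)
    · show ∑ j, (a j : ℚ_[p]) * (x j : ℚ_[p]) ^ d = 0
      exact_mod_cast hs

theorem mem_zc_iff {N A : ℕ} {a : Fin N → ℤ} : a ∈ zc N A ↔ ∀ i, |a i| ≤ (A : ℤ) := mem_zc

theorem finite_box (N A : ℕ) (S : Set (Fin N → ℤ)) (hS : ∀ a ∈ S, ∀ i, |a i| ≤ (A : ℤ)) :
    S.Finite :=
  (zc N A).finite_toSet.subset fun a ha => Finset.mem_coe.2 (mem_zc_iff.2 (hS a ha))

theorem ratSet_subset (d N A : ℕ) : RatSet d N A ⊆ LocSet d N A :=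
  fun _ ha => ⟨ha.1, ha.2.1, locallySoluble_of_point ha.2.2⟩

/-- Let `d ≥ 3` and `N ≥ 2 d + 3`.  A positive proportion of the integral diagonal equations of
degree `d` in `N` variables with coefficients in `[-A, A]` define a smooth hypersurface with a
rational point, and the proportion of those having a rational point among the smooth everywhere
locally soluble ones tends to `1` as `A → ∞`; the rational point may be taken to have integral
coordinates of absolute value at most `A ^ (1 / d)`. -/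
theorem result (d N : ℕ) (hd : 3 ≤ d) (hN : 2 * d + 3 ≤ N) :
    (∃ δ : ℝ, 0 < δ ∧ ∀ᶠ A : ℕ in atTop,
      δ * (2 * (A : ℝ) + 1) ^ N ≤ ((RatSet d N A).ncard : ℝ)) ∧
    Tendsto (fun A : ℕ => ((RatSet d N A).ncard : ℝ) / ((LocSet d N A).ncard : ℝ)) atTop (𝓝 1) := by
  classical
  have hfinal := final_all d N hd hN
  obtain ⟨m, rfl⟩ : ∃ m, N = m + 2 := ⟨N - 2, by omega⟩
  obtain ⟨δ, hδ, A0, hA0⟩ := positive d m hd (by omega) (varBound_all d m hd (by omega))
    (realBound d m (by omega) (by omega)) (density_all d m (by omega) (by omega))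
    (largeBound d m (by omega) (by omega)) (chooseV d) winBound
  -- vectors with a zero entry
  have hzero : ∀ A : ℕ, (Nat.card {a : Fin (m + 2) → ℤ // a ∈ zc (m + 2) A ∧ ∃ i, a i = 0} : ℝ) ≤
      (m + 2 : ℕ) * (2 * A + 1) ^ (m + 1) := by
    intro A
    have h := natcard_le_sum (m + 2) A (fun _ k => k = 0) 1 (by
      intro i _
      have : ((Finset.Icc (-(A : ℤ)) A).filter (fun k => k = 0)).card ≤ 1 := by
        refine Finset.card_le_one.2 fun x hx y hy => ?_
        rw [(Finset.mem_filter.1 hx).2, (Finset.mem_filter.1 hy).2]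
      exact_mod_cast this)
    refine h.trans (le_of_eq ?_)
    rw [one_mul]
    rfl
  have hRlow : ∀ A : ℕ, (Nat.card {a : Fin (m + 2) → ℤ // a ∈ zc (m + 2) A ∧ HasZero d A a} : ℝ) ≤
      ((RatSet d (m + 2) A).ncard : ℝ) +
        (Nat.card {a : Fin (m + 2) → ℤ // a ∈ zc (m + 2) A ∧ ∃ i, a i = 0} : ℝ) := by
    intro A
    have hfin : (RatSet d (m + 2) A).Finite := finite_box _ A _ fun a ha => ha.1
    have h1 : Nat.card {a : Fin (m + 2) → ℤ // a ∈ zc (m + 2) A ∧ HasZero d A a} =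
        {a : Fin (m + 2) → ℤ | a ∈ zc (m + 2) A ∧ HasZero d A a}.ncard := rfl
    have h2 : Nat.card {a : Fin (m + 2) → ℤ // a ∈ zc (m + 2) A ∧ ∃ i, a i = 0} =
        {a : Fin (m + 2) → ℤ | a ∈ zc (m + 2) A ∧ ∃ i, a i = 0}.ncard := rfl
    rw [h1, h2]
    have h3 : {a : Fin (m + 2) → ℤ | a ∈ zc (m + 2) A ∧ HasZero d A a} ⊆
        RatSet d (m + 2) A ∪ {a : Fin (m + 2) → ℤ | a ∈ zc (m + 2) A ∧ ∃ i, a i = 0} := by
      rintro a ⟨ha1, ha2⟩
      by_cases h : ∃ i, a i = 0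
      · exact Or.inr ⟨ha1, h⟩
      · refine Or.inl ⟨mem_zc_iff.1 ha1, (isSmooth_iff (by omega) a).2 ?_, ha2⟩
        intro i hi
        exact h ⟨i, hi⟩
    have hfin2 : {a : Fin (m + 2) → ℤ | a ∈ zc (m + 2) A ∧ ∃ i, a i = 0}.Finite :=
      finite_box _ A _ fun a ha => mem_zc_iff.1 ha.1
    have h4 := Set.ncard_le_ncard h3 (hfin.union hfin2)
    have h5 := Set.ncard_union_le (RatSet d (m + 2) A)
      {a : Fin (m + 2) → ℤ | a ∈ zc (m + 2) A ∧ ∃ i, a i = 0}
    exact_mod_cast h4.trans h5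
  -- positive proportion
  have hpos : ∀ᶠ A : ℕ in atTop,
      δ / 2 * (2 * (A : ℝ) + 1) ^ (m + 2) ≤ ((RatSet d (m + 2) A).ncard : ℝ) := by
    obtain ⟨A1, hA1⟩ := exists_nat_ge (((m + 2 : ℕ) : ℝ) / δ)
    filter_upwards [eventually_ge_atTop (max A0 A1)] with A hA
    have h1 := hA0 A (le_trans (le_max_left _ _) hA)
    have h2 := hRlow A
    have h3 := hzero A
    have h4 : ((m + 2 : ℕ) : ℝ) ≤ δ * A := by
      have h5 : ((m + 2 : ℕ) : ℝ) / δ ≤ A :=
        hA1.trans (by exact_mod_cast le_trans (le_max_right _ _) hA)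
      rw [div_le_iff₀ hδ] at h5
      linarith
    have h5 : ((m + 2 : ℕ) : ℝ) * (2 * A + 1) ^ (m + 1) ≤ δ / 2 * (2 * (A : ℝ) + 1) ^ (m + 2) := by
      have h6 : (2 * (A : ℝ) + 1) ^ (m + 2) = (2 * A + 1) * (2 * A + 1) ^ (m + 1) := by
        rw [← pow_succ']
      rw [h6, ← mul_assoc]
      apply mul_le_mul_of_nonneg_right _ (by positivity)
      nlinarith
    linarith
  refine ⟨⟨δ / 2, by positivity, hpos⟩, ?_⟩
  -- the ratio
  have hdiff : ∀ A : ℕ, ((LocSet d (m + 2) A).ncard : ℝ) ≤ ((RatSet d (m + 2) A).ncard : ℝ) +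
      (Nat.card {a : Fin (m + 2) → ℤ // a ∈ zc (m + 2) A ∧ LocR d a ∧ LocP d a ∧
        ¬ HasZero d A a} : ℝ) := by
    intro A
    have hfin : (RatSet d (m + 2) A).Finite := finite_box _ A _ fun a ha => ha.1
    have h2 : Nat.card {a : Fin (m + 2) → ℤ // a ∈ zc (m + 2) A ∧ LocR d a ∧ LocP d a ∧
        ¬ HasZero d A a} = {a : Fin (m + 2) → ℤ | a ∈ zc (m + 2) A ∧ LocR d a ∧ LocP d a ∧
        ¬ HasZero d A a}.ncard := rfl
    rw [h2]
    have h3 : LocSet d (m + 2) A ⊆ RatSet d (m + 2) A ∪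
        {a : Fin (m + 2) → ℤ | a ∈ zc (m + 2) A ∧ LocR d a ∧ LocP d a ∧ ¬ HasZero d A a} := by
      rintro a ⟨ha1, ha2, ha3⟩
      by_cases h : HasZero d A a
      · exact Or.inl ⟨ha1, ha2, h⟩
      · exact Or.inr ⟨mem_zc_iff.2 ha1, ha3.1, ha3.2, h⟩
    have hfin2 : {a : Fin (m + 2) → ℤ | a ∈ zc (m + 2) A ∧ LocR d a ∧ LocP d a ∧
        ¬ HasZero d A a}.Finite := finite_box _ A _ fun a ha => mem_zc_iff.1 ha.1
    have h4 := Set.ncard_le_ncard h3 (hfin.union hfin2)
    have h5 := Set.ncard_union_le (RatSet d (m + 2) A)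
      {a : Fin (m + 2) → ℤ | a ∈ zc (m + 2) A ∧ LocR d a ∧ LocP d a ∧ ¬ HasZero d A a}
    exact_mod_cast h4.trans h5
  have hle : ∀ A : ℕ, ((RatSet d (m + 2) A).ncard : ℝ) ≤ ((LocSet d (m + 2) A).ncard : ℝ) := by
    intro A
    exact_mod_cast Set.ncard_le_ncard (ratSet_subset d (m + 2) A)
      (finite_box _ A _ fun a ha => ha.1)
  rw [Metric.tendsto_atTop']
  intro ε hε
  obtain ⟨A2, hA2⟩ := hfinal (ε * δ / 4) (by positivity)
  obtain ⟨A3, hA3⟩ := eventually_atTop.1 hpos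
  refine ⟨max A2 A3, fun A hA => ?_⟩
  have h1 := hA2 A (le_trans (le_max_left _ _) hA.le)
  have h2 := hA3 A (le_trans (le_max_right _ _) hA.le)
  have h3 := hdiff A
  have h4 := hle A
  set r : ℝ := ((RatSet d (m + 2) A).ncard : ℝ) with hr
  set l : ℝ := ((LocSet d (m + 2) A).ncard : ℝ) with hl
  have hP : (0 : ℝ) < (2 * (A : ℝ) + 1) ^ (m + 2) := by positivity
  have hr0 : 0 < r := lt_of_lt_of_le (by positivity) h2
  have hl0 : 0 < l := lt_of_lt_of_le hr0 h4
  rw [Real.dist_eq, abs_sub_comm, abs_of_nonneg]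
  · have h5 : 1 - r / l = (l - r) / l := by field_simp
    rw [h5, div_lt_iff₀ hl0]
    have h6 : l - r ≤ ε * δ / 4 * (2 * (A : ℝ) + 1) ^ (m + 2) := by linarith
    have h7 : ε * δ / 4 * (2 * (A : ℝ) + 1) ^ (m + 2) ≤ ε / 2 * r := by
      calc ε * δ / 4 * (2 * (A : ℝ) + 1) ^ (m + 2) =
            ε / 2 * (δ / 2 * (2 * (A : ℝ) + 1) ^ (m + 2)) := by ring
        _ ≤ _ := mul_le_mul_of_nonneg_left h2 (by positivity)
    have h8 : ε / 2 * r ≤ ε / 2 * l := mul_le_mul_of_nonneg_left h4 (by positivity)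
    have h9 : 0 < ε * l := by positivity
    linarith
  · rw [sub_nonneg, div_le_one hl0]
    exact h4

end Pool.Agent.Retired.MP_03ef3d_ag.RandomDiagonal
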