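import Pool.Agent.BHP.Final

/-!
# The Hasse principle for 100% of the block perturbations of every form

Let the variables be divided into `m ≥ 2` blocks of sizes `k i ≥ 2`, `N = ∑ k i`, let `d ≥ 2` and
assume `(k i - 1) (N - d) ≥ 3` for all `i`: this holds if `N ≥ d + 3`; or if all blocks have size
at least `3` and `N ≥ d + 2`; or if all blocks have size at least `4` and `N ≥ d + 1` (all Fano
hypersurfaces).  Let `Q` be an ARBITRARY (not random) integral form of degree `d` in the `N`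
variables with coefficients at most `H`.  Consider the forms `Q + F` where `F` is random: a sum of
forms of degree `d` in the variables of the single blocks, with coefficients at most `H`.  Then,
uniformly in `Q`, a positive proportion of them is smooth and everywhere locally soluble, and 100%
of the latter have a nonzero integral zero of height at most `(Λ H) ^ (1 / (N - d))`.
-/

namespace Pool.Agent.Results.MP_03ef3d_ag.SemiRandom

open MvPolynomial Pool.Agent.Hhelper90.RCI Pool.Agent.HP Pool.Agent.BHP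
open Pool.Agent.MHP (Pt dm)

/-- The variables: `m` blocks, the `i`-th consists of `k i` variables. -/
abbrev Var {m : ℕ} (k : Fin m → ℕ) := (i : Fin m) × Fin (k i)

/-- The set of integral forms of degree `d` with all coefficients at most `H` in absolute value. -/
def Forms {m : ℕ} (k : Fin m → ℕ) (d H : ℕ) : Set (MvPolynomial (Var k) ℤ) :=
  {F | F.IsHomogeneous d ∧ ∀ μ, |F.coeff μ| ≤ (H : ℤ)}

/-- The block forms: every monomial occurring in `F` contains only variables of one block, i.e.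
`F = ∑ i, F_i` with forms `F_i` in the variables of the `i`-th block. -/
def BlockForms {m : ℕ} (k : Fin m → ℕ) (d H : ℕ) : Set (MvPolynomial (Var k) ℤ) :=
  {F ∈ Forms k d H | ∀ μ, F.coeff μ ≠ 0 → ∃ i, ∀ v, μ v ≠ 0 → v.1 = i}

/-- The hypersurface `F = 0` in projective space is smooth: at every nonzero complex zero some
partial derivative of `F` does not vanish. -/
def IsSmooth {m : ℕ} {k : Fin m → ℕ} (F : MvPolynomial (Var k) ℤ) : Prop :=
  ∀ z : Var k → ℂ, z ≠ 0 → aeval z F = 0 → ∃ v, aeval z (pderiv v F) ≠ 0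

/-- The hypersurface `F = 0` in projective space has a point over the field `K`. -/
def HasPoint {m : ℕ} {k : Fin m → ℕ} (K : Type) [Field K] (F : MvPolynomial (Var k) ℤ) : Prop :=
  ∃ x : Var k → K, x ≠ 0 ∧ aeval x F = 0

/-- The hypersurface has points over the reals and over the `p`-adic numbers for all primes `p`. -/
def EverywhereLocallySoluble {m : ℕ} {k : Fin m → ℕ} (F : MvPolynomial (Var k) ℤ) : Prop :=
  HasPoint ℝ F ∧ ∀ (p : ℕ) [Fact p.Prime], HasPoint ℚ_[p] F

/-- `F` has a nonzero integral zero `x` with `|x v| ^ s ≤ T` for all `v`. -/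
def HasSmallZero {m : ℕ} {k : Fin m → ℕ} (s : ℕ) (T : ℝ) (F : MvPolynomial (Var k) ℤ) : Prop :=
  ∃ x : Var k → ℤ, x ≠ 0 ∧ aeval x F = 0 ∧ ∀ v, |(x v : ℝ)| ^ s ≤ T

section translation

variable {m : ℕ} {n : Fin m → ℕ} {d : ℕ}

theorem exists_bm (μ : Vr n →₀ ℕ) (hμ : μ.degree = d) (i : Fin m)
    (hi : ∀ v, μ v ≠ 0 → v.1 = i) : ∃ q : BI n d, bm q = μ := by
  classical
  have h0 : μ.degree = ∑ j, μ ⟨i, j⟩ := by
    rw [Finsupp.degree_eq_sum, Fintype.sum_sigma,
      Finset.sum_eq_single i]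
    · intro l _ hl
      refine Finset.sum_eq_zero fun j _ => ?_
      by_contra h
      exact hl (hi ⟨l, j⟩ h)
    · intro h
      exact absurd (Finset.mem_univ i) h
  refine ⟨⟨i, ⟨Finsupp.equivFunOnFinite.symm fun j => μ ⟨i, j⟩, mem_mon.2 ?_⟩⟩, ?_⟩
  · rw [← hμ, h0]
    rfl
  · ext ⟨l, j⟩
    by_cases hl : l = i
    · subst hl
      exact Finsupp.embDomain_apply_self (sig l) _ j
    · have h1 : μ ⟨l, j⟩ = 0 := by
        by_contra h
        exact hl (hi ⟨l, j⟩ h)
      rw [h1]
      apply Finsupp.embDomain_of_notMem_range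
      rintro ⟨j', hj'⟩
      exact hl (congrArg Sigma.fst hj').symm

theorem bm_fst (q : BI n d) (v : Vr n) (h : bm q v ≠ 0) : v.1 = q.1 := by
  by_contra hne
  apply h
  apply Finsupp.embDomain_of_notMem_range
  rintro ⟨j, hj⟩
  exact hne (by rw [← hj]; rfl)

theorem blockForms_eq (hd : 1 ≤ d) (H : ℕ) :
    BlockForms (fun i => n i + 1) d H = blk '' (box (BI n d) (H : ℤ) : Set (BI n d → ℤ)) := by
  ext F
  constructor
  · rintro ⟨⟨hF1, hF2⟩, hF3⟩
    refine ⟨fun q => F.coeff (bm q), ?_, ?_⟩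
    · rw [Finset.mem_coe]
      exact mem_box.2 fun q => hF2 (bm q)
    · ext μ
      by_cases h' : μ ∈ Set.range (bm (n := n) (d := d))
      · obtain ⟨q, rfl⟩ := h'
        rw [coeff_blk hd]
      · rw [coeff_blk_of_notin _ _ h']
        by_contra h
        have h0 : F.coeff μ ≠ 0 := fun h0 => h h0.symm
        obtain ⟨i, hi⟩ := hF3 μ h0
        have hdeg : μ.degree = d := by
          have h2 := hF1 h0
          have h3 := DFunLike.congr_fun (Finsupp.degree_eq_weight_one (σ := Vr n) (R := ℕ)) μ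
          exact h3.trans h2
        obtain ⟨q, hq⟩ := exists_bm (n := n) μ hdeg i hi
        exact h' ⟨q, hq⟩
  · rintro ⟨a, ha, rfl⟩
    rw [Finset.mem_coe] at ha
    refine ⟨⟨isHomogeneous_blk a, fun μ => ?_⟩, fun μ hμ => ?_⟩
    · by_cases h' : μ ∈ Set.range (bm (n := n) (d := d))
      · obtain ⟨q, rfl⟩ := h'
        rw [coeff_blk hd]
        exact mem_box.1 ha q
      · rw [coeff_blk_of_notin _ _ h', abs_zero]
        positivity
    · have h' : μ ∈ Set.range (bm (n := n) (d := d)) := by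
        by_contra h'
        exact hμ (coeff_blk_of_notin _ _ h')
      obtain ⟨q, rfl⟩ := h'
      exact ⟨q.1, fun v hv => bm_fst q v hv⟩

theorem blk_injective (hd : 1 ≤ d) : Function.Injective (blk : (BI n d → ℤ) → _) := by
  intro a b hab
  funext q
  rw [← coeff_blk hd a q, hab, coeff_blk hd]

theorem ncard_sep (hd : 1 ≤ d) {H : ℕ} (P : MvPolynomial (Vr n) ℤ → Prop)
    [DecidablePred fun a : BI n d → ℤ => P (blk a)] :
    {F ∈ BlockForms (fun i => n i + 1) d H | P F}.ncard =
      ((box (BI n d) (H : ℤ)).filter fun a => P (blk a)).card := by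
  have h1 : {F ∈ BlockForms (fun i => n i + 1) d H | P F} = blk ''
      (((box (BI n d) (H : ℤ)).filter fun a => P (blk a) : Finset _) :
        Set (BI n d → ℤ)) := by
    rw [blockForms_eq hd]
    ext F
    constructor
    · rintro ⟨⟨a, ha, rfl⟩, hP⟩
      exact ⟨a, by rw [Finset.mem_coe, Finset.mem_filter]; exact ⟨ha, hP⟩, rfl⟩
    · rintro ⟨a, ha, rfl⟩
      rw [Finset.mem_coe, Finset.mem_filter] at ha
      exact ⟨⟨a, ha.1, rfl⟩, ha.2⟩
  rw [h1, Set.ncard_image_of_injective _ (blk_injective hd), Set.ncard_coe_finset]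

theorem ncard_blockForms (hd : 1 ≤ d) (H : ℕ) :
    ((BlockForms (fun i => n i + 1) d H).ncard : ℝ) =
      (2 * (H : ℝ) + 1) ^ Fintype.card (BI n d) := by
  rw [blockForms_eq hd, Set.ncard_image_of_injective _ (blk_injective hd), Set.ncard_coe_finset,
    card_box]
  push_cast
  rfl

theorem isF_iff (H : ℕ) (Q : MvPolynomial (Vr n) ℤ) :
    Q ∈ Forms (fun i => n i + 1) d H ↔ IsF d H Q := Iff.rfl

theorem aeval_eq {R : Type*} [CommRing R] (P : MvPolynomial (Vr n) ℤ) (x : Vr n → R) :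
    aeval x P = pval P (fun i j => x ⟨i, j⟩) := rfl

theorem ne_zero_iff {R : Type*} [Zero R] (x : Vr n → R) :
    x ≠ 0 ↔ (fun i j => x ⟨i, j⟩ : Pt n R) ≠ 0 := by
  constructor
  · intro h h0
    apply h
    funext v
    exact congrFun (congrFun h0 v.1) v.2
  · intro h h0
    apply h
    funext i j
    exact congrFun h0 ⟨i, j⟩

theorem hasPoint_iff {K : Type} [Field K] (P : MvPolynomial (Vr n) ℤ) :
    HasPoint (k := fun i => n i + 1) K P ↔ ∃ x : Pt n K, x ≠ 0 ∧ pval P x = 0 := by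
  constructor
  · rintro ⟨x, hx0, hx⟩
    exact ⟨fun i j => x ⟨i, j⟩, (ne_zero_iff (n := n) x).1 hx0, hx⟩
  · rintro ⟨x, hx0, hx⟩
    exact ⟨fun v => x v.1 v.2, (ne_zero_iff (n := n) (fun v : Vr n => x v.1 v.2)).2 hx0, hx⟩

theorem els_iff (P : MvPolynomial (Vr n) ℤ) :
    EverywhereLocallySoluble (k := fun i => n i + 1) P ↔ BHP.ELS P := by
  unfold EverywhereLocallySoluble BHP.ELS
  simp only [hasPoint_iff]

theorem smooth_of (P : MvPolynomial (Vr n) ℤ) (h : SmoothC P) :
    IsSmooth (k := fun i => n i + 1) P := by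
  intro z hz0 _
  obtain ⟨q, hq⟩ := h (fun i j => z ⟨i, j⟩) ((ne_zero_iff (n := n) z).1 hz0)
  exact ⟨q, hq⟩

theorem small_of (S : ℕ) (L A : ℝ) (P : MvPolynomial (Vr n) ℤ) (h : HasPt S L A P) :
    HasSmallZero (k := fun i => n i + 1) S (L * A) P := by
  obtain ⟨x, hx, hx0, hxT⟩ := h
  exact ⟨fun v => x v.1 v.2, (ne_zero_iff (n := n) (fun v : Vr n => x v.1 v.2)).2 hx, hx0,
    fun v => hxT v.1 v.2⟩

end translation

/-- **The Hasse principle for 100% of the block perturbations of every form.**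
Let the variables be divided into `m ≥ 2` blocks of sizes `k i ≥ 2`, let `N = ∑ k i`, `d ≥ 2` and
`(k i - 1) (N - d) ≥ 3` for all `i`.  There is `c > 0` such that for every `ε > 0` there are `Λ`
and `H₀` such that for all `H ≥ H₀` and for EVERY integral form `Q` of degree `d` with coefficients
at most `H` in absolute value: among the block forms `F` of degree `d` with coefficients at most
`H`, at least a proportion `c` is such that `Q + F` is smooth and everywhere locally soluble, and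
for all but a proportion `ε` of the latter `Q + F` has a nonzero integral zero `x` with
`|x v| ^ (N - d) ≤ Λ H` for all `v`. -/
theorem result (m : ℕ) (hm : 2 ≤ m) (k : Fin m → ℕ) (hk : ∀ i, 2 ≤ k i) (d : ℕ) (hd : 2 ≤ d)
    (hs : ∀ i, 3 ≤ (k i - 1) * (∑ i, k i - d)) :
    ∃ c : ℝ, 0 < c ∧ ∀ ε : ℝ, 0 < ε → ∃ Λ : ℝ, 0 < Λ ∧ ∃ H₀ : ℕ, ∀ H : ℕ, H₀ ≤ H →
      ∀ Q ∈ Forms k d H,
      c * ((BlockForms k d H).ncard : ℝ) ≤
        (({F ∈ BlockForms k d H | IsSmooth (Q + F) ∧
          EverywhereLocallySoluble (Q + F)}.ncard : ℕ) : ℝ) ∧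
      (1 - ε) * (({F ∈ BlockForms k d H | IsSmooth (Q + F) ∧
          EverywhereLocallySoluble (Q + F)}.ncard : ℕ) : ℝ) ≤
        (({F ∈ BlockForms k d H | IsSmooth (Q + F) ∧ EverywhereLocallySoluble (Q + F) ∧
          HasSmallZero (∑ i, k i - d) (Λ * H) (Q + F)}.ncard : ℕ) : ℝ) := by
  classical
  obtain ⟨n, rfl⟩ : ∃ n : Fin m → ℕ, k = fun i => n i + 1 :=
    ⟨fun i => k i - 1, funext fun i => by have := hk i; show k i = k i - 1 + 1; omega⟩
  have hn : ∀ i, 1 ≤ n i := fun i => by have : 2 ≤ n i + 1 := hk i; omega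
  have hd1 : 1 ≤ d := by omega
  have hnS : ∀ i, 3 ≤ n i * (dm n - d) := fun i => by
    have := hs i
    simpa [dm] using this
  obtain ⟨h3, hS, hS1, hdS⟩ := numerics n hm hn hd hnS
  obtain ⟨c, hc, H1, h1⟩ := positive n hm hn h3 hd (dm n - d) hS hS1 hnS hdS
  refine ⟨c, hc, fun ε hε => ?_⟩
  obtain ⟨Λ, hΛ, H2, h2⟩ := hasse n hm hn h3 hd (dm n - d) hS hS1 hnS hdS (ε * c) (by positivity)
  refine ⟨Λ, hΛ, max H1 H2, fun H hH Q hQ => ?_⟩
  have hQ' : IsF d H Q := hQ
  have hfin : (BlockForms (fun i => n i + 1) d H).Finite := by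
    rw [blockForms_eq hd1]
    exact (Finset.finite_toSet _).image _
  have h3' := h1 H (le_trans (le_max_left _ _) hH) Q hQ'
  have h4' := h2 H (le_trans (le_max_right _ _) hH) Q hQ'
  have h3 : c * ((BlockForms (fun i => n i + 1) d H).ncard : ℝ) ≤
      (({F ∈ BlockForms (fun i => n i + 1) d H | IsSmooth (Q + F) ∧
          EverywhereLocallySoluble (Q + F)}.ncard : ℕ) : ℝ) := by
    rw [ncard_blockForms hd1, ncard_sep hd1 fun F : MvPolynomial (Vr n) ℤ =>
      IsSmooth (k := fun i => n i + 1) (Q + F) ∧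
          EverywhereLocallySoluble (k := fun i => n i + 1) (Q + F)]
    refine h3'.trans ?_
    rw [Nat.cast_le]
    refine Finset.card_le_card ?_
    intro a ha
    rw [Finset.mem_filter] at ha ⊢
    exact ⟨ha.1, smooth_of _ ha.2.1, (els_iff _).2 ha.2.2⟩
  have h4 : (({F ∈ BlockForms (fun i => n i + 1) d H | EverywhereLocallySoluble (Q + F) ∧
        ¬ HasSmallZero (dm n - d) (Λ * H) (Q + F)}.ncard : ℕ) : ℝ) ≤
        (ε * c) * ((BlockForms (fun i => n i + 1) d H).ncard : ℝ) := by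
    rw [ncard_blockForms hd1, ncard_sep hd1 fun F : MvPolynomial (Vr n) ℤ =>
      EverywhereLocallySoluble (k := fun i => n i + 1) (Q + F) ∧
        ¬ HasSmallZero (k := fun i => n i + 1) (dm n - d) (Λ * H) (Q + F)]
    refine le_trans ?_ h4'
    rw [Nat.cast_le]
    refine Finset.card_le_card ?_
    intro a ha
    rw [Finset.mem_filter] at ha ⊢
    exact ⟨ha.1, (els_iff _).1 ha.2.1, fun h => ha.2.2 (small_of _ _ _ _ h)⟩
  refine ⟨h3, ?_⟩
  have hdm : ∑ i, (n i + 1) - d = dm n - d := rfl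
  rw [hdm]
  set s : ℕ := dm n - d with hs'
  set T : ℝ := Λ * (H : ℝ) with hT
  have hsub : {F ∈ BlockForms (fun i => n i + 1) d H | IsSmooth (Q + F) ∧
        EverywhereLocallySoluble (Q + F)} ⊆
      {F ∈ BlockForms (fun i => n i + 1) d H | IsSmooth (Q + F) ∧
        EverywhereLocallySoluble (Q + F) ∧ HasSmallZero s T (Q + F)} ∪
      {F ∈ BlockForms (fun i => n i + 1) d H | EverywhereLocallySoluble (Q + F) ∧
        ¬ HasSmallZero s T (Q + F)} := by
    rintro F ⟨hF1, hF2, hF3⟩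
    by_cases h : HasSmallZero s T (Q + F)
    · exact Or.inl ⟨hF1, hF2, hF3, h⟩
    · exact Or.inr ⟨hF1, hF3, h⟩
  have h5 := (Set.ncard_le_ncard hsub ((hfin.subset (Set.sep_subset _ _)).union
    (hfin.subset (Set.sep_subset _ _)))).trans (Set.ncard_union_le _ _)
  have h6 : (({F ∈ BlockForms (fun i => n i + 1) d H | IsSmooth (Q + F) ∧
        EverywhereLocallySoluble (Q + F)}.ncard : ℕ) : ℝ) ≤
      (({F ∈ BlockForms (fun i => n i + 1) d H | IsSmooth (Q + F) ∧
        EverywhereLocallySoluble (Q + F) ∧ HasSmallZero s T (Q + F)}.ncard : ℕ) : ℝ) +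
      (({F ∈ BlockForms (fun i => n i + 1) d H | EverywhereLocallySoluble (Q + F) ∧
        ¬ HasSmallZero s T (Q + F)}.ncard : ℕ) : ℝ) := by
    exact_mod_cast h5
  have h7 := mul_le_mul_of_nonneg_left h3 hε.le
  linarith

end Pool.Agent.Results.MP_03ef3d_ag.SemiRandom
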