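import Pool.Agent.SRD.Fin
import Pool.Agent.SRD.Trf

/-!
# The Hasse principle for 100% of the diagonal perturbations of every form

Let `d ≥ 2` and `s ≥ 2 d + 2`, and let `Q` be an ARBITRARY (not random) integral form of degree `d`
in `s` variables with coefficients at most `A` in absolute value.  Consider the forms
`Q + a₁ x₁ ^ d + ... + a_s x_s ^ d` where only the `s` integers `a_i`, `|a_i| ≤ A`, are random.
Then, uniformly in `Q`, for 100% of the vectors `a`: if the form is everywhere locally soluble then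
it has a nonzero integral zero of height at most `(Λ A) ^ (1 / (s - d))`.  Moreover, if `d` is odd
or if the coefficients of `Q` are at most `A / 4`, then a positive proportion of these forms is
smooth and everywhere locally soluble.
-/

namespace Pool.Agent.Results.MP_03ef3d_ag.SemiRandomDiagonal

open MvPolynomial

variable {s : ℕ}

/-- The set of integral forms of degree `d` in `s` variables with all coefficients at most `A` in
absolute value. -/
def Forms (s d A : ℕ) : Set (MvPolynomial (Fin s) ℤ) :=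
  {F | F.IsHomogeneous d ∧ ∀ μ, |F.coeff μ| ≤ (A : ℤ)}

/-- The integral vectors with all coordinates at most `A` in absolute value. -/
def Box (s A : ℕ) : Set (Fin s → ℤ) := {a | ∀ i, |a i| ≤ (A : ℤ)}

/-- The diagonal form `∑ i, a i * X i ^ d`. -/
noncomputable def diag (d : ℕ) (a : Fin s → ℤ) : MvPolynomial (Fin s) ℤ :=
  ∑ i, C (a i) * X i ^ d

/-- The hypersurface `F = 0` in projective space is smooth: at every nonzero complex zero some
partial derivative of `F` does not vanish. -/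
def IsSmooth (F : MvPolynomial (Fin s) ℤ) : Prop :=
  ∀ z : Fin s → ℂ, z ≠ 0 → aeval z F = 0 → ∃ i, aeval z (pderiv i F) ≠ 0

/-- The hypersurface `F = 0` in projective space has a point over the field `K`. -/
def HasPoint (K : Type) [Field K] (F : MvPolynomial (Fin s) ℤ) : Prop :=
  ∃ x : Fin s → K, x ≠ 0 ∧ aeval x F = 0

/-- The hypersurface has points over the reals and over the `p`-adic numbers for all primes `p`. -/
def EverywhereLocallySoluble (F : MvPolynomial (Fin s) ℤ) : Prop :=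
  HasPoint ℝ F ∧ ∀ (p : ℕ) [Fact p.Prime], HasPoint ℚ_[p] F

/-- `F` has a nonzero integral zero `x` with `|x i| ^ k ≤ T` for all `i`. -/
def HasSmallZero (k : ℕ) (T : ℝ) (F : MvPolynomial (Fin s) ℤ) : Prop :=
  ∃ x : Fin s → ℤ, x ≠ 0 ∧ aeval x F = 0 ∧ ∀ i, |(x i : ℝ)| ^ k ≤ T

section translation

open Pool.Agent.SRD

variable {d : ℕ}

theorem els_iff (Q : MvPolynomial (Fin s) ℤ) (a : Fin s → ℤ) :
    Pool.Agent.BHP.ELS (PA d (ren Q) a) ↔ EverywhereLocallySoluble (Q + diag d a) := by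
  unfold Pool.Agent.BHP.ELS EverywhereLocallySoluble HasPoint diag
  rw [← trf_PA, trf_point]
  refine and_congr Iff.rfl (forall_congr' fun p => forall_congr' fun _ => ?_)
  rw [trf_point]

theorem smooth_of (Q : MvPolynomial (Fin s) ℤ) (a : Fin s → ℤ)
    (h : Pool.Agent.BHP.SmoothC (PA d (ren Q) a)) : IsSmooth (Q + diag d a) := by
  intro z hz _
  obtain ⟨q, hq⟩ := h (pt z) ((trf_ne (pt z)).2 hz)
  have h1 : (⟨q.1, 0⟩ : Pool.Agent.BHP.Vr (n0 s)) = q := (eqv s).right_inv q
  rw [← h1, ← trf_PA, trf_pderiv] at hq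
  exact ⟨q.1, hq⟩

theorem small_of (Q : MvPolynomial (Fin s) ℤ) (a : Fin s → ℤ) (k : ℕ) (L A : ℝ)
    (h : Pool.Agent.BHP.HasPt k L A (PA d (ren Q) a)) :
    HasSmallZero k (L * A) (Q + diag d a) := by
  obtain ⟨x, hx, h0, hb⟩ := h
  refine ⟨fun i => x i 0, (trf_ne x).1 hx, ?_, fun i => hb i 0⟩
  rw [← trf_PA, trf_pval'] at h0
  exact h0

theorem sep_eq (A : ℕ) (p : (Fin s → ℤ) → Prop) [DecidablePred p] :
    {a ∈ Box s A | p a} = (((bx s A).filter p : Finset (Fin s → ℤ)) : Set (Fin s → ℤ)) := by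
  ext a
  rw [Finset.mem_coe, Finset.mem_filter, mem_bx]
  exact Iff.rfl

theorem box_eq (A : ℕ) : Box s A = ((bx s A : Finset (Fin s → ℤ)) : Set (Fin s → ℤ)) := by
  ext a
  rw [Finset.mem_coe, mem_bx]
  exact Iff.rfl

theorem box_ncard (A : ℕ) : ((Box s A).ncard : ℝ) = (2 * (A : ℝ) + 1) ^ s := by
  rw [box_eq, Set.ncard_coe_finset, card_bx]
  push_cast
  rfl

end translation

/-- **The Hasse principle for 100% of the diagonal perturbations of every form.**
Let `d ≥ 2` and `s ≥ 2 d + 2`.  There is `c > 0` such that for every `ε > 0` there are `Λ` and `A₀`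
such that for all `A ≥ A₀` and for EVERY integral form `Q` of degree `d` in `s` variables with
coefficients at most `A` in absolute value:
* for all but a proportion `ε` of the vectors `a` with `|a i| ≤ A`, if `Q + ∑ i, a i * X i ^ d` is
  everywhere locally soluble then it has a nonzero integral zero `x` with `|x i| ^ (s - d) ≤ Λ A`;
* if `d` is odd or if the coefficients of `Q` are at most `A / 4` then for at least a proportion `c`
  of the vectors `a` the form `Q + ∑ i, a i * X i ^ d` is smooth and everywhere locally soluble, and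
  for all but a proportion `ε` of these vectors it has a nonzero integral zero `x` with
  `|x i| ^ (s - d) ≤ Λ A`. -/
theorem result (d s : ℕ) (hd : 2 ≤ d) (hs : 2 * d + 2 ≤ s) :
    ∃ c : ℝ, 0 < c ∧ ∀ ε : ℝ, 0 < ε → ∃ Λ : ℝ, 0 < Λ ∧ ∃ A₀ : ℕ, ∀ A : ℕ, A₀ ≤ A →
      ∀ Q ∈ Forms s d A,
      (({a ∈ Box s A | EverywhereLocallySoluble (Q + diag d a) ∧
          ¬ HasSmallZero (s - d) (Λ * A) (Q + diag d a)}.ncard : ℕ) : ℝ) ≤
        ε * ((Box s A).ncard : ℝ) ∧
      (Odd d ∨ (∀ μ, 4 * |Q.coeff μ| ≤ (A : ℤ)) →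
        c * ((Box s A).ncard : ℝ) ≤
          (({a ∈ Box s A | IsSmooth (Q + diag d a) ∧
            EverywhereLocallySoluble (Q + diag d a)}.ncard : ℕ) : ℝ) ∧
        (1 - ε) * (({a ∈ Box s A | IsSmooth (Q + diag d a) ∧
            EverywhereLocallySoluble (Q + diag d a)}.ncard : ℕ) : ℝ) ≤
          (({a ∈ Box s A | IsSmooth (Q + diag d a) ∧ EverywhereLocallySoluble (Q + diag d a) ∧
            HasSmallZero (s - d) (Λ * A) (Q + diag d a)}.ncard : ℕ) : ℝ)) := by
  classical
  obtain ⟨c, hc, A1, H1⟩ := Pool.Agent.SRD.positive d hd s hs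
  refine ⟨c, hc, fun ε hε => ?_⟩
  obtain ⟨Λ, hΛ, A2, H2⟩ := Pool.Agent.SRD.hasse d hd s hs (min ε (ε * c)) (by positivity)
  refine ⟨Λ, hΛ, max A1 A2, fun A hA Q hQ => ?_⟩
  have hA1 : A1 ≤ A := (le_max_left _ _).trans hA
  have hA2 : A2 ≤ A := (le_max_right _ _).trans hA
  have hF : Pool.Agent.BHP.IsF d A (Pool.Agent.SRD.ren Q) :=
    Pool.Agent.SRD.trf_isF Q hQ.1 hQ.2
  have h2 := H2 A hA2 (Pool.Agent.SRD.ren Q) hF
  have h3 : (({a ∈ Box s A | EverywhereLocallySoluble (Q + diag d a) ∧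
          ¬ HasSmallZero (s - d) (Λ * A) (Q + diag d a)}.ncard : ℕ) : ℝ) ≤
        min ε (ε * c) * ((Box s A).ncard : ℝ) := by
    rw [box_ncard, sep_eq, Set.ncard_coe_finset]
    refine le_trans ?_ h2
    rw [Nat.cast_le]
    refine Finset.card_le_card fun a ha => ?_
    rw [Finset.mem_filter] at ha ⊢
    exact ⟨ha.1, (els_iff Q a).2 ha.2.1, fun h => ha.2.2 (small_of Q a _ _ _ h)⟩
  refine ⟨h3.trans (mul_le_mul_of_nonneg_right (min_le_left _ _) (Nat.cast_nonneg _)),
    fun hQ4 => ?_⟩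
  have hQ4' : Odd d ∨ ∀ k, 4 * |(Pool.Agent.SRD.ren Q).coeff k| ≤ (A : ℤ) := by
    rcases hQ4 with h | h
    · exact Or.inl h
    · exact Or.inr (Pool.Agent.SRD.trf_coeff Q h)
  have h1 := H1 A hA1 (Pool.Agent.SRD.ren Q) hF hQ4'
  have h4 : c * ((Box s A).ncard : ℝ) ≤
          (({a ∈ Box s A | IsSmooth (Q + diag d a) ∧
            EverywhereLocallySoluble (Q + diag d a)}.ncard : ℕ) : ℝ) := by
    rw [box_ncard, sep_eq, Set.ncard_coe_finset]
    refine h1.trans ?_
    rw [Nat.cast_le]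
    refine Finset.card_le_card fun a ha => ?_
    rw [Finset.mem_filter] at ha ⊢
    exact ⟨ha.1, smooth_of Q a ha.2.1, (els_iff Q a).1 ha.2.2⟩
  refine ⟨h4, ?_⟩
  have hfin : (Box s A).Finite := by
    rw [box_eq]
    exact Finset.finite_toSet _
  have hsub : {a ∈ Box s A | IsSmooth (Q + diag d a) ∧
        EverywhereLocallySoluble (Q + diag d a)} ⊆
      {a ∈ Box s A | IsSmooth (Q + diag d a) ∧ EverywhereLocallySoluble (Q + diag d a) ∧
        HasSmallZero (s - d) (Λ * A) (Q + diag d a)} ∪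
      {a ∈ Box s A | EverywhereLocallySoluble (Q + diag d a) ∧
        ¬ HasSmallZero (s - d) (Λ * A) (Q + diag d a)} := by
    rintro a ⟨ha1, ha2, ha3⟩
    by_cases h : HasSmallZero (s - d) (Λ * A) (Q + diag d a)
    · exact Or.inl ⟨ha1, ha2, ha3, h⟩
    · exact Or.inr ⟨ha1, ha3, h⟩
  have h5 := (Set.ncard_le_ncard hsub ((hfin.subset (Set.sep_subset _ _)).union
    (hfin.subset (Set.sep_subset _ _)))).trans (Set.ncard_union_le _ _)
  have h6 : (({a ∈ Box s A | IsSmooth (Q + diag d a) ∧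
        EverywhereLocallySoluble (Q + diag d a)}.ncard : ℕ) : ℝ) ≤
      (({a ∈ Box s A | IsSmooth (Q + diag d a) ∧ EverywhereLocallySoluble (Q + diag d a) ∧
        HasSmallZero (s - d) (Λ * A) (Q + diag d a)}.ncard : ℕ) : ℝ) +
      (({a ∈ Box s A | EverywhereLocallySoluble (Q + diag d a) ∧
        ¬ HasSmallZero (s - d) (Λ * A) (Q + diag d a)}.ncard : ℕ) : ℝ) := by
    exact_mod_cast h5
  have h7 := mul_le_mul_of_nonneg_left h4 hε.le
  have h8 : min ε (ε * c) * ((Box s A).ncard : ℝ) ≤ ε * c * ((Box s A).ncard : ℝ) :=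
    mul_le_mul_of_nonneg_right (min_le_right _ _) (Nat.cast_nonneg _)
  linarith

end Pool.Agent.Results.MP_03ef3d_ag.SemiRandomDiagonal
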